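import Pool.Agent.H921S.All

/-!
# No uniquely satisfiable subformula before the random k-SAT process becomes unsatisfiable

For every `k ≥ 3` there is `δ > 0` such that for all large `n`, with probability at least `δ`, no
satisfiable formula of the random `k`-SAT process contains a uniquely satisfiable subformula.
-/

set_option autoImplicit false

namespace Pool.Agent.Results.MP_284d10_pr.NoUSSBeforeUnsat

open Finset Pool.Agent.H921S
open scoped Classical

noncomputable section

/-- orderings of all `k`-clauses on `n` variables -/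
abbrev Ordering (k n : ℕ) := Fin (Fintype.card (Clause k n)) ≃ Clause k n

/-- the formula `F_m`: the first `m` clauses of the ordering -/
def stage {k n : ℕ} (σ : Ordering k n) (m : ℕ) : Form k n :=
  univ.filter (fun C : Clause k n => ∃ i : Fin (Fintype.card (Clause k n)), (i : ℕ) < m ∧ σ i = C)

/-- no satisfiable formula of the process contains a uniquely satisfiable subformula -/
def NoneBeforeUnsat {k n : ℕ} (σ : Ordering k n) : Prop :=
  ∀ m : ℕ, Sat (stage σ m) → ¬ HasUSS (stage σ m)

/-- probability under a uniformly random ordering of all `k`-clauses -/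
def prob (k n : ℕ) : ℝ :=
  ((univ.filter (fun σ : Ordering k n => NoneBeforeUnsat σ)).card : ℝ) /
    (Fintype.card (Ordering k n) : ℝ)

theorem result (k : ℕ) (hk : 3 ≤ k) :
    ∃ δ : ℝ, 0 < δ ∧ ∃ n0 : ℕ, ∀ n ≥ n0, δ ≤ prob k n := by
  obtain ⟨δ, hδ, n0, h⟩ := Pool.Agent.H921S.fin_thm k hk
  refine ⟨δ, hδ, n0, fun n hn => ?_⟩
  have h1 := h n hn
  have hst : ∀ (σ : Ordering k n) (m : ℕ), stage σ m = st σ m := by
    intro σ m
    ext C
    simp only [stage, st, mem_filter, mem_univ, true_and]
    constructor
    · rintro ⟨i, hi, rfl⟩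
      simpa using hi
    · intro hC
      exact ⟨σ.symm C, hC, by simp⟩
  have h2 : prob k n = avg (fun σ : Ordering k n =>
      ind (∀ m, Sat (st σ m) → ¬ HasUSS (st σ m))) := by
    unfold prob avg NoneBeforeUnsat ind
    simp only [hst]
    rw [Finset.sum_boole]
  rw [h2]
  exact h1

end

end Pool.Agent.Results.MP_284d10_pr.NoUSSBeforeUnsat
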