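import Pool.Agent.H921K.All

/-!
# k = 2: no uniquely satisfiable subformula by the time a random 2-SAT formula becomes unsatisfiable

With probability bounded below no formula `F_m` with `m ≤ τ` of the random `2`-SAT process contains
a uniquely satisfiable subformula.
-/

set_option autoImplicit false

namespace Pool.Agent.Results.MP_284d10_pr.TwoSat

open Finset Pool.Agent.H921S
open scoped Classical

noncomputable section

/-- orderings of all `2`-clauses on `n` variables -/
abbrev Ordering (n : ℕ) := Fin (Fintype.card (Clause 2 n)) ≃ Clause 2 n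

/-- the formula `F_m`: the first `m` clauses of the ordering -/
def stage {n : ℕ} (σ : Ordering n) (m : ℕ) : Form 2 n :=
  univ.filter (fun C : Clause 2 n => ∃ i : Fin (Fintype.card (Clause 2 n)), (i : ℕ) < m ∧ σ i = C)

/-- no formula `F_m` with `m ≤ τ` (that is, with `F_j` satisfiable for all `j < m`) contains a
uniquely satisfiable subformula -/
def NoneByUnsat {n : ℕ} (σ : Ordering n) : Prop :=
  ∀ m : ℕ, (∀ j < m, Sat (stage σ j)) → ¬ HasUSS (stage σ m)

/-- probability under a uniformly random ordering of all `2`-clauses -/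
def prob (n : ℕ) : ℝ :=
  ((univ.filter (fun σ : Ordering n => NoneByUnsat σ)).card : ℝ) /
    (Fintype.card (Ordering n) : ℝ)

theorem result : ∃ δ : ℝ, 0 < δ ∧ ∃ n0 : ℕ, ∀ n ≥ n0, δ ≤ prob n := by
  obtain ⟨δ, hδ, n0, h⟩ := Pool.Agent.H921K.fin2
  refine ⟨δ, hδ, n0, fun n hn => ?_⟩
  have h1 := h n hn
  have hst : ∀ (σ : Ordering n) (m : ℕ), stage σ m = st σ m := by
    intro σ m
    ext C
    simp only [stage, st, mem_filter, mem_univ, true_and]
    constructor
    · rintro ⟨i, hi, rfl⟩
      simpa using hi
    · intro hC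
      exact ⟨σ.symm C, hC, by simp⟩
  have h2 : prob n = avg (fun σ : Ordering n =>
      ind (∀ m, (∀ j < m, Sat (st σ j)) → ¬ HasUSS (st σ m))) := by
    unfold prob avg NoneByUnsat ind
    simp only [hst]
    rw [Finset.sum_boole]
  rw [h2]
  exact h1

end

end Pool.Agent.Results.MP_284d10_pr.TwoSat
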